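import Mathlib

/-!
There is a dense sequence of pairwise distinct points of the Euclidean plane every dense
subsequence of which has two terms at rational distance.
-/

namespace Pool.Agent.Results.MP_9c82d2_co.Main

open Filter Topology Set

abbrev E := EuclideanSpace ℝ (Fin 2)

/-- recursion with choice -/
theorem exists_seq {X : Type*} (P : ∀ l : ℕ, (∀ j : ℕ, j < l → X) → X → Prop)
    (h : ∀ l f, ∃ x, P l f x) : ∃ s : ℕ → X, ∀ l, P l (fun j _ => s j) (s l) := by
  classical
  let F : ∀ l : ℕ, (∀ j : ℕ, j < l → X) → X := fun l f => Classical.choose (h l f)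
  let s : ℕ → X := fun l => Nat.strongRec (motive := fun _ => X) F l
  refine ⟨s, fun l => ?_⟩
  have h1 : s l = F l (fun j _ => s j) := by
    simp only [s]
    rw [Nat.strongRec]
  rw [h1]
  exact Classical.choose_spec (h l _)

/-- the centres -/
noncomputable def ctr (j : ℕ) : E := !₂[3 * (j : ℝ), 0]

theorem dist_ctr {i j : ℕ} (h : i ≠ j) : 3 ≤ dist (ctr i) (ctr j) := by
  rw [EuclideanSpace.dist_eq]
  simp only [ctr, Fin.sum_univ_two]
  simp only [Matrix.cons_val_zero, Matrix.cons_val_one, dist_self]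
  have h1 : (3 : ℝ) ≤ dist (3 * (i : ℝ)) (3 * (j : ℝ)) := by
    rw [Real.dist_eq, ← mul_sub, abs_mul, abs_of_pos (by norm_num : (0:ℝ) < 3)]
    have h2 : (1 : ℝ) ≤ |(i : ℝ) - j| := by
      have h3 : (1 : ℤ) ≤ |(i : ℤ) - j| := Int.one_le_abs (by omega)
      exact_mod_cast h3
    linarith
  have h2 : (0 : ℝ) ^ 2 = 0 := by norm_num
  rw [h2, add_zero, Real.sqrt_sq dist_nonneg]
  exact h1

theorem disj {i j : ℕ} {x : E} (hi : x ∈ Metric.ball (ctr i) 1) (hj : x ∈ Metric.ball (ctr j) 1) :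
    i = j := by
  by_contra h
  have h1 := dist_ctr h
  rw [Metric.mem_ball] at hi hj
  have h2 := dist_triangle (ctr i) x (ctr j)
  rw [dist_comm (ctr i) x] at h2
  linarith

/-- Points at rational distance from `p`, avoiding a finite set, in a nonempty open set. -/
theorem exists_rat_dist (W : Set E) (hW : IsOpen W) (hne : W.Nonempty) (p : E) (F : Set E)
    (hF : F.Finite) : ∃ q ∈ W, q ∉ F ∧ ∃ r : ℚ, dist q p = r := by
  have hF' : (insert p F).Finite := hF.insert p
  have hd : Dense ((insert p F)ᶜ) := by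
    rw [compl_eq_univ_sdiff]
    exact dense_univ.sdiff_finite hF'
  obtain ⟨q0, hq0, hq0F⟩ := hd.inter_open_nonempty W hW hne
  have hq0p : q0 ≠ p := fun h => hq0F (by rw [h]; exact mem_insert p F)
  have hpos : 0 < ‖q0 - p‖ := norm_pos_iff.mpr (sub_ne_zero.mpr hq0p)
  let c : ℝ → E := fun t => p + (t / ‖q0 - p‖) • (q0 - p)
  have hc : Continuous c := by fun_prop
  have hc0 : c ‖q0 - p‖ = q0 := by
    simp only [c]
    rw [div_self hpos.ne', one_smul]; abel
  let O : Set ℝ := c ⁻¹' (W ∩ Fᶜ) ∩ Ioi 0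
  have hO : IsOpen O := ((hW.inter hF.isClosed.isOpen_compl).preimage hc).inter isOpen_Ioi
  have hOne : O.Nonempty := by
    refine ⟨‖q0 - p‖, ?_, hpos⟩
    rw [mem_preimage, hc0]
    exact ⟨hq0, fun h => hq0F (mem_insert_of_mem p h)⟩
  obtain ⟨t, ht, r, rfl⟩ := Rat.denseRange_cast (𝕜 := ℝ) |>.inter_open_nonempty O hO hOne
  refine ⟨c r, ht.1.1, ht.1.2, r, ?_⟩
  simp only [c]
  rw [dist_eq_norm, add_sub_cancel_left, norm_smul, Real.norm_eq_abs, abs_div,
    abs_of_pos (show (0:ℝ) < r from ht.2), abs_of_pos hpos]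
  field_simp

/-- The sequence. -/
theorem exists_sequence : ∃ s : ℕ → E, Function.Injective s ∧ Dense (range s) ∧
    ∀ j l, j < l → s l ∈ Metric.ball (ctr j) 1 → ∃ r : ℚ, dist (s l) (s j) = r := by
  classical
  obtain ⟨B, hBc, hBe, hBb⟩ := TopologicalSpace.exists_countable_basis E
  have hBne : B.Nonempty := by
    obtain ⟨b, hb, -⟩ := hBb.exists_subset_of_mem_open (mem_univ (0 : E)) isOpen_univ
    exact ⟨b, hb⟩
  obtain ⟨b, hb⟩ := hBc.exists_eq_range hBne
  have hbopen : ∀ l, IsOpen (b l) := fun l => hBb.isOpen (by rw [hb]; exact mem_range_self l)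
  have hbne : ∀ l, (b l).Nonempty := fun l => by
    rw [nonempty_iff_ne_empty]
    intro h
    exact hBe (by rw [hb, ← h]; exact mem_range_self l)
  have hstep : ∀ (l : ℕ) (f : ∀ j : ℕ, j < l → E), ∃ x : E,
      x ∈ b l ∧ (∀ j (hj : j < l), x ≠ f j hj) ∧
      ∀ j (hj : j < l), x ∈ Metric.ball (ctr j) 1 → ∃ r : ℚ, dist x (f j hj) = r := by
    intro l f
    let F : Set E := range (fun j : Fin l => f j.1 j.2)
    have hF : F.Finite := finite_range _
    by_cases hA : ∃ j, ∃ _ : j < l, (b l ∩ Metric.ball (ctr j) 1).Nonempty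
    · obtain ⟨j, hj, hne⟩ := hA
      obtain ⟨q, hq, hqF, r, hr⟩ := exists_rat_dist (b l ∩ Metric.ball (ctr j) 1)
        ((hbopen l).inter Metric.isOpen_ball) hne (f j hj) F hF
      refine ⟨q, hq.1, ?_, ?_⟩
      · intro i hi h
        exact hqF ⟨⟨i, hi⟩, h.symm⟩
      · intro i hi hqi
        have : i = j := disj hqi hq.2
        subst this
        exact ⟨r, hr⟩
    · push Not at hA
      obtain ⟨q, hq, hqF, -⟩ := exists_rat_dist (b l) (hbopen l) (hbne l) 0 F hF
      refine ⟨q, hq, ?_, ?_⟩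
      · intro i hi h
        exact hqF ⟨⟨i, hi⟩, h.symm⟩
      · intro i hi hqi
        exfalso
        have h1 := hA i hi
        have h2 : q ∈ b l ∩ Metric.ball (ctr i) 1 := ⟨hq, hqi⟩
        rw [h1] at h2
        exact h2
  obtain ⟨s, hs⟩ := exists_seq _ hstep
  refine ⟨s, ?_, ?_, ?_⟩
  · intro i j hij
    by_contra hne
    rcases lt_or_gt_of_ne hne with h | h
    · exact (hs j).2.1 i h hij.symm
    · exact (hs i).2.1 j h hij
  · rw [hBb.dense_iff]
    intro o ho _
    rw [hb] at ho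
    obtain ⟨l, rfl⟩ := ho
    exact ⟨s l, (hs l).1, mem_range_self l⟩
  · intro j l hjl hl
    exact (hs l).2.2 j hjl hl

/-- There is a dense sequence of pairwise distinct points of the plane such that every dense
subsequence has two distinct terms whose distance is rational. -/
theorem result : ∃ x : ℕ → EuclideanSpace ℝ (Fin 2), Function.Injective x ∧ Dense (range x) ∧
    ∀ φ : ℕ → ℕ, StrictMono φ → Dense (range (x ∘ φ)) →
      ∃ k l, k ≠ l ∧ ¬ Irrational (dist (x (φ k)) (x (φ l))) := by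
  obtain ⟨s, hinj, hdense, hrat⟩ := exists_sequence
  refine ⟨s, hinj, hdense, ?_⟩
  intro φ hφ hd
  -- remove the finitely many terms of index at most `φ 0`
  let F : Set E := s '' (Set.Iic (φ 0))
  have hF : F.Finite := (Set.finite_Iic _).image s
  have hd' : Dense (range (s ∘ φ) \ F) := hd.sdiff_finite hF
  obtain ⟨y, hyU, ⟨k, rfl⟩, hyF⟩ := hd'.inter_open_nonempty (Metric.ball (ctr (φ 0)) 1)
    Metric.isOpen_ball ⟨ctr (φ 0), Metric.mem_ball_self one_pos⟩
  have hk : φ 0 < φ k := by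
    by_contra h
    exact hyF ⟨φ k, not_lt.mp h, rfl⟩
  obtain ⟨r, hr⟩ := hrat (φ 0) (φ k) hk hyU
  refine ⟨k, 0, ?_, ?_⟩
  · rintro rfl; exact lt_irrefl _ hk
  · rw [hr]
    exact fun h => h ⟨r, rfl⟩

end Pool.Agent.Results.MP_9c82d2_co.Main
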